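import Pool.Agent.R498.MP.Gold

set_option autoImplicit false

/-!
# Strings of small primes complementary to almost primes
-/

namespace Pool.Agent.Results.MP_bae66e_nt.PrimeStrings

open Filter

/-- `n` has at most `r` prime factors, counted with multiplicity, all of them at least `w`. -/
def AlmostPrime (r : ℕ) (w : ℝ) (n : ℕ) : Prop :=
  n.primeFactorsList.length ≤ r ∧ ∀ q : ℕ, q.Prime → q ∣ n → w ≤ q

/-- The primes in the interval `[x, x + C]` are exactly the numbers `x + s`, `s ∈ H`. -/
def PrimePattern (C : ℕ) (H : Finset ℕ) (x : ℕ) : Prop := ∀ y ≤ C, (x + y).Prime ↔ y ∈ H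

/-- **Every large even `m` is `p` plus an almost prime, for strings of consecutive primes `p ≤ m ^ ε`.** Let
`q` be squarefree. For every `k` there are `K`, `B` and `δ > 0` such that for every `A` (think of `ε = 1 / A`)
there is an `r` such that, for every finite set `S` of at least `K` nonnegative integers, the following
holds for all large even `m`, all `N` with `m ^ (1 / A) ≤ N < m / 2` and all `c` for which `c (m - c)` is
coprime to `q` (for instance `q = 1`). There are a subset `H` of `S` with at least `k` elements and at least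
`N / (log N) ^ B` numbers `x` with `N < x ≤ x + max S ≤ 2 N` such that the primes in `[x, x + max S]` are
exactly the numbers `x + s`, `s ∈ H`, all these primes `p` are `≡ c` modulo `q`, and all `m - p` have at
most `r` prime factors, all of them at least `N ^ δ`. -/
theorem result (q : ℕ) (hq : Squarefree q) (k : ℕ) : ∃ (K B : ℕ) (δ : ℝ), 0 < δ ∧
    ∀ A : ℕ, ∃ r : ℕ, ∀ S : Finset ℕ, K ≤ S.card → ∀ᶠ m : ℕ in atTop, ∀ N : ℕ, m ≤ N ^ A →
      Even m → 2 * N < m → ∀ c : ℕ, IsCoprime ((c : ℤ) * ((m : ℤ) - c)) (q : ℤ) →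
      ∃ H ⊆ S, k ≤ H.card ∧ ∃ T : Finset ℕ, (N : ℝ) ≤ Real.log N ^ B * T.card ∧
        ∀ x ∈ T, N < x ∧ x + S.sup id ≤ 2 * N ∧ PrimePattern (S.sup id) H x ∧
          ∀ s ∈ H, x + s ≡ c [MOD q] ∧ AlmostPrime r ((N : ℝ) ^ δ) (m - (x + s)) :=
  Pool.Agent.R498.MP.gold_stringsM q hq k

end Pool.Agent.Results.MP_bae66e_nt.PrimeStrings
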