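import Pool.Agent.R498.MP.LinC

set_option autoImplicit false

/-!
# Strings of consecutive primes `p` with almost prime `(h p) ^ 2 + a`, in narrow progressions
-/

namespace Pool.Agent.Results.MP_391708_nt.PrimeStrings

open Filter

/-- The pairs `(h, a)`, `h ≥ 1`, for which `x ((h x) ^ 2 + a)` has no fixed prime divisor: `h` and `a` are
coprime, `h ^ 2 + a` is odd and not divisible by `3`. For every `a` one of `h = 1, 2, 3, 6` qualifies. -/
def Admissible (h : ℕ) (a : ℤ) : Prop :=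
  1 ≤ h ∧ IsCoprime (h : ℤ) a ∧ ¬ (2 : ℤ) ∣ (h : ℤ) ^ 2 + a ∧ ¬ (3 : ℤ) ∣ (h : ℤ) ^ 2 + a

/-- `n ≠ 0` is up to the sign a product of at most `r` primes, counted with multiplicity, all of them at
least `w`. -/
def AlmostPrime (r : ℕ) (w : ℝ) (n : ℤ) : Prop :=
  n ≠ 0 ∧ n.natAbs.primeFactorsList.length ≤ r ∧ ∀ q : ℕ, q.Prime → (q : ℤ) ∣ n → w ≤ q

/-- The primes in the interval `[x, x + C]` are exactly the numbers `x + s`, `s ∈ H`. -/
def PrimePattern (C : ℕ) (H : Finset ℕ) (x : ℕ) : Prop := ∀ y ≤ C, (x + y).Prime ↔ y ∈ H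

theorem mulOK (h : ℕ) (a : ℤ) (hha : Admissible h a) : Pool.Agent.R498.MP.MulOK h a := by
  refine ⟨fun p hp hph hpa => ?_, hha.2.2.1, hha.2.2.2⟩
  have h1 : (p : ℤ) ∣ (h : ℤ) := by exact_mod_cast hph
  have h2 : IsUnit (p : ℤ) := hha.2.1.isUnit_of_dvd' h1 hpa
  rw [Int.isUnit_iff] at h2
  have h3 := hp.one_lt
  omega

/-- For every `a` which is not of the form `-m ^ 2`, every admissible `h`, every squarefree `q` and every
`c` for which `c ((h c) ^ 2 + a)` is coprime to `q` there are arbitrarily long strings of consecutive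
primes `p`, all `≡ c` modulo `q`, for which all `n = h p` have almost prime `n ^ 2 + a`, repeated along
narrow progressions; and for every `a` one of `h = 1, 2, 3, 6` is admissible. -/
theorem result :
    (∀ a : ℤ, ∃ h ∈ ({1, 2, 3, 6} : Finset ℕ), Admissible h a) ∧
    ∀ a : ℤ, ¬ IsSquare (-a) → ∀ h : ℕ, Admissible h a → ∀ q c : ℕ, Squarefree q →
    IsCoprime ((c : ℤ) * (((h : ℤ) * c) ^ 2 + a)) (q : ℤ) → ∀ m : ℕ,
    ∃ (K r : ℕ) (δ : ℝ), 0 < δ ∧ ∀ S : Finset ℕ, K ≤ S.card → ∀ l : ℕ, ∃ B : ℕ,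
      ∀ᶠ N : ℕ in atTop, ∃ H ⊆ S, m ≤ H.card ∧ ∃ n d : ℕ, 1 ≤ d ∧ (d : ℝ) ≤ Real.log N ^ B ∧
      ∀ j < l, N < n + j * d ∧ n + j * d + S.sup id ≤ 2 * N ∧
        PrimePattern (S.sup id) H (n + j * d) ∧
        ∀ s ∈ H, n + j * d + s ≡ c [MOD q] ∧
          AlmostPrime r ((N : ℝ) ^ δ) (((h * (n + j * d + s) : ℕ) : ℤ) ^ 2 + a) := by
  constructor
  · intro a
    have cop : ∀ h : ℕ, (∀ p : ℕ, p.Prime → p ∣ h → ¬ (p : ℤ) ∣ a) → IsCoprime (h : ℤ) a := by
      intro h hp
      rw [Int.isCoprime_iff_nat_coprime, Int.natAbs_natCast]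
      apply Nat.Coprime.symm
      apply Nat.coprime_of_dvd
      intro k hk hka hkh
      exact hp k hk hkh (Int.natCast_dvd.2 hka)
    have hdvd6 : ∀ p : ℕ, p.Prime → p ∣ 6 → p = 2 ∨ p = 3 := by
      intro p hp hd
      have h1 : p ∣ 2 * 3 := by simpa using hd
      rcases (hp.dvd_mul).1 h1 with h2 | h2
      · exact Or.inl ((Nat.prime_dvd_prime_iff_eq hp Nat.prime_two).1 h2)
      · exact Or.inr ((Nat.prime_dvd_prime_iff_eq hp Nat.prime_three).1 h2)
    rcases Int.even_or_odd' a with ⟨k, hk | hk⟩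
    · -- `a` even
      by_cases h3 : (3 : ℤ) ∣ 1 + a
      · refine ⟨3, by simp, by norm_num, cop 3 ?_, ?_, ?_⟩
        · intro p hp hp3 hpa
          have : p = 3 := (Nat.prime_dvd_prime_iff_eq hp Nat.prime_three).1 hp3
          subst this
          push_cast at hpa
          omega
        · push_cast; omega
        · push_cast; omega
      · refine ⟨1, by simp, le_rfl, cop 1 ?_, ?_, ?_⟩
        · intro p hp hp1
          exact absurd (Nat.dvd_one.1 hp1) hp.one_lt.ne'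
        · push_cast; omega
        · push_cast; omega
    · by_cases h3 : (3 : ℤ) ∣ 1 + a
      · refine ⟨6, by simp, by norm_num, cop 6 ?_, ?_, ?_⟩
        · intro p hp hp6 hpa
          rcases hdvd6 p hp hp6 with rfl | rfl
          · push_cast at hpa; omega
          · push_cast at hpa; omega
        · push_cast; omega
        · push_cast; omega
      · refine ⟨2, by simp, by norm_num, cop 2 ?_, ?_, ?_⟩
        · intro p hp hp2 hpa
          have : p = 2 := (Nat.prime_dvd_prime_iff_eq hp Nat.prime_two).1 hp2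
          subst this
          push_cast at hpa
          omega
        · push_cast; omega
        · push_cast; omega
  · intro a ha h hha q c hq hc m
    obtain ⟨K, r, δ, hδ, hmain⟩ := Pool.Agent.R498.MP.stringsCR (Pool.Agent.R498.MP.HX h a)
      (fun n _ => Pool.Agent.R498.MP.HX_nz h a ha n)
      (Pool.Agent.R498.MP.HX_adm h a (mulOK h a hha)) q c hq (fun p hp hpq => by
        rw [Pool.Agent.R498.MP.HX_eval]
        exact Pool.Agent.R498.MP.cop_to _ q hc p hp hpq) m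
    refine ⟨K, r, δ, hδ, fun S hS l => ?_⟩
    obtain ⟨B, hB⟩ := hmain S hS l
    refine ⟨B, ?_⟩
    filter_upwards [hB] with N hN
    obtain ⟨H, hH, hHm, n, d, h3, h4, h5⟩ := hN
    refine ⟨H, hH, hHm, n, d, h3, h4, fun j hj => ?_⟩
    obtain ⟨g1, g2, g3, g4⟩ := h5 j hj
    refine ⟨g1, g2, g3, fun s hs => ?_⟩
    obtain ⟨gc, g0, g5, g6⟩ := g4 s hs
    rw [Pool.Agent.R498.MP.HX_eval] at g0 g5 g6
    have e : ((h : ℤ) * ((n + j * d + s : ℕ) : ℤ)) ^ 2 + a =
        ((h * (n + j * d + s) : ℕ) : ℤ) ^ 2 + a := by push_cast; ring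
    rw [e] at g0 g5 g6
    exact ⟨gc, g0, g5, g6⟩

end Pool.Agent.Results.MP_391708_nt.PrimeStrings
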