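import Pool.Agent.R498.MP.LinC

set_option autoImplicit false

/-!
# Strings of consecutive primes `p` with almost prime values of a quadratic polynomial at `h p`
-/

namespace Pool.Agent.Results.MP_a1177c_nt.PrimeStrings

open Filter

/-- The triples of the question: `a > 0`, `gcd (a, b, c) = 1`, `a + b` and `c` are not both even, and the
discriminant is not a perfect square. -/
def Admissible (a b c : ℤ) : Prop :=
  0 < a ∧ (∀ p : ℕ, p.Prime → (p : ℤ) ∣ a → (p : ℤ) ∣ b → ¬ (p : ℤ) ∣ c) ∧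
    ¬ (Even (a + b) ∧ Even c) ∧ ¬ IsSquare (b ^ 2 - 4 * a * c)

/-- `n ≠ 0` is up to the sign a product of at most `r` primes, counted with multiplicity, all of them at
least `w`. -/
def AlmostPrime (r : ℕ) (w : ℝ) (n : ℤ) : Prop :=
  n ≠ 0 ∧ n.natAbs.primeFactorsList.length ≤ r ∧ ∀ q : ℕ, q.Prime → (q : ℤ) ∣ n → w ≤ q

/-- The primes in the interval `[x, x + C]` are exactly the numbers `x + s`, `s ∈ H`. -/
def PrimePattern (C : ℕ) (H : Finset ℕ) (x : ℕ) : Prop := ∀ y ≤ C, (x + y).Prime ↔ y ∈ H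

/-- **Strings of consecutive primes `p ≡ e` modulo `q` with almost prime `f(h p)`.** For every admissible
quadratic polynomial `f(t) = a t ^ 2 + b t + c` one of `h = 1, 2, 3, 6` has the following property. Let `q`
be squarefree and let `e f(h e)` be coprime to `q` (for instance `q = 1`). For every `m` there are `K`, `r`
and `δ > 0` such that, for every finite set `S` of at least `K` nonnegative integers and every `l`, there
is an exponent `B` such that for all large `N` there are a subset `H` of `S` with at least `m` elements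
and an arithmetic progression `n, n + d, ..., n + (l - 1) d` in `(N, 2 N]` with difference
`1 ≤ d ≤ (log N) ^ B` such that for all its terms `x` the primes in `[x, x + max S]` are exactly the
numbers `x + s`, `s ∈ H`, and all these primes `p` are `≡ e` modulo `q` and the numbers `f(h p)` have at
most `r` prime factors, all of them at least `N ^ δ`. -/
theorem result (a b c : ℤ) (habc : Admissible a b c) : ∃ h ∈ ({1, 2, 3, 6} : Finset ℕ),
    ∀ q e : ℕ, Squarefree q →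
    IsCoprime ((e : ℤ) * (a * ((h : ℤ) * e) ^ 2 + b * ((h : ℤ) * e) + c)) (q : ℤ) → ∀ m : ℕ,
    ∃ (K r : ℕ) (δ : ℝ), 0 < δ ∧ ∀ S : Finset ℕ, K ≤ S.card → ∀ l : ℕ, ∃ B : ℕ,
      ∀ᶠ N : ℕ in atTop, ∃ H ⊆ S, m ≤ H.card ∧ ∃ n d : ℕ, 1 ≤ d ∧ (d : ℝ) ≤ Real.log N ^ B ∧
      ∀ j < l, N < n + j * d ∧ n + j * d + S.sup id ≤ 2 * N ∧
        PrimePattern (S.sup id) H (n + j * d) ∧
        ∀ s ∈ H, n + j * d + s ≡ e [MOD q] ∧
          AlmostPrime r ((N : ℝ) ^ δ) (a * ((h * (n + j * d + s) : ℕ) : ℤ) ^ 2 +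
          b * ((h * (n + j * d + s) : ℕ) : ℤ) + c) := by
  obtain ⟨ha, hg, h2, hΔ⟩ := habc
  have h2' : ¬ ((2 : ℤ) ∣ a + b ∧ (2 : ℤ) ∣ c) := by
    rintro ⟨g1, g2⟩
    exact h2 ⟨even_iff_two_dvd.2 g1, even_iff_two_dvd.2 g2⟩
  refine ⟨Pool.Agent.R498.MP.mul6 c, Pool.Agent.R498.MP.mul6_mem c, fun q e hq he m => ?_⟩
  obtain ⟨h, hh⟩ : ∃ h, h = Pool.Agent.R498.MP.mul6 c := ⟨_, rfl⟩
  have hadm := Pool.Agent.R498.MP.HQ_adm a b c hg h2'
  rw [← hh] at hadm he ⊢
  obtain ⟨K, r, δ, hδ, hmain⟩ := Pool.Agent.R498.MP.stringsCR (Pool.Agent.R498.MP.HQ h a b c)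
    (fun n _ => Pool.Agent.R498.MP.HQ_nz h a b c hΔ n) hadm q e hq (fun p hp hpq => by
      rw [Pool.Agent.R498.MP.HQ_eval]
      exact Pool.Agent.R498.MP.cop_to _ q he p hp hpq) m
  refine ⟨K, r, δ, hδ, fun S hS l => ?_⟩
  obtain ⟨B, hB⟩ := hmain S hS l
  refine ⟨B, ?_⟩
  filter_upwards [hB] with N hN
  obtain ⟨H, hH, hHm, n, d, h3, h4, h5⟩ := hN
  refine ⟨H, hH, hHm, n, d, h3, h4, fun j hj => ?_⟩
  obtain ⟨g1, g2, g3, g4⟩ := h5 j hj
  refine ⟨g1, g2, g3, fun s hs => ?_⟩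
  obtain ⟨gc, g0, g5, g6⟩ := g4 s hs
  rw [Pool.Agent.R498.MP.HQ_eval] at g0 g5 g6
  have e : a * ((h : ℤ) * ((n + j * d + s : ℕ) : ℤ)) ^ 2 + b * ((h : ℤ) *
      ((n + j * d + s : ℕ) : ℤ)) + c = a * ((h * (n + j * d + s) : ℕ) : ℤ) ^ 2 +
      b * ((h * (n + j * d + s) : ℕ) : ℤ) + c := by push_cast; ring
  rw [e] at g0 g5 g6
  exact ⟨gc, g0, g5, g6⟩

end Pool.Agent.Results.MP_a1177c_nt.PrimeStrings
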